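import Pool.Agent.LibEN20.E4
import Pool.Agent.LibEN20.E5

/-! helper71, MP_7cd4a5_gt, AR criterion: choice of an antitone sequence of covering radii and the estimate of the sum -/

namespace Pool.Agent.LibAR71

open Pool.Agent.LibEN20

variable {E : Type*} [NormedAddCommGroup E] [Module ℝ E]

theorem exists_bound {K : Set E} (hK : IsCompact K) : ∃ R : ℝ, 0 ≤ R ∧ Cov K 0 R := by
  obtain ⟨R, hR⟩ := hK.isBounded.exists_norm_le
  refine ⟨max R 0, le_max_right _ _, {0}, by simp, fun x hx => ⟨0, by simp, ?_⟩⟩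
  rw [sub_zero]
  exact (hR x hx).trans (le_max_left _ _)

theorem radius_nonneg {K : Set E} (hne : K.Nonempty) {k : ℕ} {r : ℝ} (h : Cov K k r) : 0 ≤ r := by
  obtain ⟨x, hx⟩ := hne
  obtain ⟨s, -, h⟩ := h
  obtain ⟨y, -, hy⟩ := h x hx
  exact (norm_nonneg _).trans hy

/-- the running minimum of `R, r N, r (N+1), ..` with the indices cut at `M` -/
noncomputable def rm (R : ℝ) (r : ℕ → ℝ) (N M : ℕ) : ℕ → ℝ
  | 0 => if 0 < N then R else min R (r 0)
  | k + 1 => if N ≤ k + 1 ∧ k + 1 ≤ M then min (rm R r N M k) (r (k + 1)) else rm R r N M k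

theorem rm_succ_le (R : ℝ) (r : ℕ → ℝ) (N M k : ℕ) : rm R r N M (k + 1) ≤ rm R r N M k := by
  rw [rm]
  split_ifs
  · exact min_le_left _ _
  · exact le_rfl

theorem rm_anti (R : ℝ) (r : ℕ → ℝ) (N M : ℕ) : Antitone (rm R r N M) :=
  antitone_nat_of_succ_le (rm_succ_le R r N M)

theorem rm_le {R : ℝ} {r : ℕ → ℝ} {N M : ℕ} (hN : 1 ≤ N) {k : ℕ} (h1 : N ≤ k) (h2 : k ≤ M) : rm R r N M k ≤ r k := by
  cases k with
  | zero => omega
  | succ k =>
    rw [rm, if_pos ⟨h1, h2⟩]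
    exact min_le_right _ _

theorem rm_cov {K : Set E} {R : ℝ} {r : ℕ → ℝ} {N M : ℕ} (hN : 1 ≤ N) (hR : Cov K 0 R)
    (h : ∀ k, N ≤ k → k ≤ M → Cov K k (r k)) : ∀ k, Cov K k (rm R r N M k)
  | 0 => by
    rw [rm, if_pos (by omega)]
    exact hR
  | k + 1 => by
    rw [rm]
    split_ifs with hk
    · rcases min_choice (rm R r N M k) (r (k + 1)) with h' | h'
      · rw [h']
        exact cov_mono (rm_cov hN hR h k) (Nat.le_succ k) le_rfl
      · rw [h']
        exact h (k + 1) hk.1 hk.2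
    · exact cov_mono (rm_cov hN hR h k) (Nat.le_succ k) le_rfl

/-- comparison of the sum in `tail` with `∑ e k / k` -/
theorem sum_le {e : ℕ → ℝ} (he0 : ∀ k, 0 ≤ e k) {N M : ℕ} (hN : 1 ≤ N) :
    ∑ j ∈ Finset.Ioc (8 * N) M, 2 * e (j / 8) / j ≤ 2 * ∑ k ∈ Finset.Icc N M, e k / k := by
  have h1 : ∀ j ∈ Finset.Ioc (8 * N) M, j / 8 ∈ Finset.Icc N M := by
    intro j hj
    rw [Finset.mem_Ioc] at hj
    rw [Finset.mem_Icc]
    omega
  rw [← Finset.sum_fiberwise_of_maps_to h1, Finset.mul_sum]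
  refine Finset.sum_le_sum fun k hk => ?_
  rw [Finset.mem_Icc] at hk
  have hk0 : (0 : ℝ) < k := by
    have : 0 < k := by omega
    exact_mod_cast this
  have h2 : ∀ j ∈ (Finset.Ioc (8 * N) M).filter (fun j => j / 8 = k), 2 * e (j / 8) / (j : ℝ) ≤ 2 * e k / (8 * k) := by
    intro j hj
    rw [Finset.mem_filter] at hj
    obtain ⟨hj1, hj2⟩ := hj
    rw [hj2]
    have h3 : 8 * k ≤ j := by omega
    have h4 : (8 * k : ℝ) ≤ j := by exact_mod_cast h3
    exact div_le_div_of_nonneg_left (by have := he0 k; positivity) (by positivity) h4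
  have h3 : ((Finset.Ioc (8 * N) M).filter (fun j => j / 8 = k)).card ≤ 8 := by
    have : (Finset.Ioc (8 * N) M).filter (fun j => j / 8 = k) ⊆ Finset.Ico (8 * k) (8 * k + 8) := by
      intro j hj
      rw [Finset.mem_filter] at hj
      rw [Finset.mem_Ico]
      omega
    refine (Finset.card_le_card this).trans ?_
    simp
  calc ∑ j ∈ (Finset.Ioc (8 * N) M).filter (fun j => j / 8 = k), 2 * e (j / 8) / (j : ℝ)
      ≤ ((Finset.Ioc (8 * N) M).filter (fun j => j / 8 = k)).card • (2 * e k / (8 * k)) := Finset.sum_le_card_nsmul _ _ _ h2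
    _ ≤ 8 • (2 * e k / (8 * k)) := by
        refine nsmul_le_nsmul_left ?_ h3
        have := he0 k
        positivity
    _ = 2 * (e k / k) := by
        rw [nsmul_eq_mul]
        field_simp
        ring

theorem single_le {e : ℕ → ℝ} (he : Antitone e) (he0 : ∀ k, 0 ≤ e k) {N M : ℕ} (hN : 1 ≤ N) (hM : 2 * N ≤ M) :
    e (2 * N) ≤ 2 * ∑ k ∈ Finset.Icc N M, e k / k := by
  have h1 : ∑ k ∈ Finset.Icc N (2 * N), e (2 * N) / (2 * N : ℝ) ≤ ∑ k ∈ Finset.Icc N M, e k / k := by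
    calc ∑ k ∈ Finset.Icc N (2 * N), e (2 * N) / (2 * N : ℝ) ≤ ∑ k ∈ Finset.Icc N (2 * N), e k / k := by
          refine Finset.sum_le_sum fun k hk => ?_
          rw [Finset.mem_Icc] at hk
          have hk0 : (0 : ℝ) < k := by
            have : 0 < k := by omega
            exact_mod_cast this
          have hk1 : (k : ℝ) ≤ 2 * N := by exact_mod_cast hk.2
          exact div_le_div₀ (he0 k) (he hk.2) hk0 hk1
      _ ≤ _ := Finset.sum_le_sum_of_subset_of_nonneg (Finset.Icc_subset_Icc_right hM) fun k _ _ =>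
          div_nonneg (he0 k) (Nat.cast_nonneg k)
  have h2 : ∑ k ∈ Finset.Icc N (2 * N), e (2 * N) / (2 * N : ℝ) = (N + 1) * (e (2 * N) / (2 * N)) := by
    rw [Finset.sum_const, Nat.card_Icc, nsmul_eq_mul]
    congr 1
    have : 2 * N + 1 - N = N + 1 := by omega
    rw [this]
    push_cast
    ring
  have hN0 : (0 : ℝ) < N := by exact_mod_cast hN
  have h3 : e (2 * N) / 2 ≤ (N + 1) * (e (2 * N) / (2 * N)) := by
    have := he0 (2 * N)
    have e1 : (N + 1) * (e (2 * N) / (2 * N)) = e (2 * N) / 2 + e (2 * N) / (2 * N) := by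
      field_simp
    rw [e1]
    have : 0 ≤ e (2 * N) / (2 * N) := by positivity
    linarith
  linarith

end Pool.Agent.LibAR71
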