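import Pool.Agent.LibAR71.A1

/-! helper71, MP_7cd4a5_gt, AR criterion: sparsification over a finite range of scales -/

namespace Pool.Agent.LibAR71

open Pool.Agent.LibEN20

variable {E : Type*} [NormedAddCommGroup E] [Module ℝ E]

/-- the hypothesis of the AR criterion at `ε` -/
def Crit (K : Set E) (ε : ℝ) : Prop :=
  ∃ (N m : ℕ) (r : ℕ → ℝ), 1 ≤ N ∧ Cov K m (r m) ∧ (∀ k, N ≤ k → k ≤ 2 ^ m → Cov K k (r k)) ∧
    N * r m ≤ ε ∧ ∑ k ∈ Finset.Icc N (2 ^ m), r k / k ≤ ε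

theorem card_supp_le {ι : Type*} [Fintype ι] (c : ι → ℝ) : (supp c).card ≤ Fintype.card ι := Finset.card_le_univ _

/-- from `2 ^ m` points to `16 N` points at the cost `68 ε` -/
theorem sparse_fin (hF : IsFNorm E) {K : Set E} (hK : IsCompact K) (hc : Convex ℝ K) (hne : K.Nonempty) {N m : ℕ}
    {r : ℕ → ℝ} (hN : 1 ≤ N) (hcov : ∀ k, N ≤ k → k ≤ 2 ^ m → Cov K k (r k)) {ε : ℝ}
    (hs : ∑ k ∈ Finset.Icc N (2 ^ m), r k / k ≤ ε) {ι : Type*} [Fintype ι] (hι : Fintype.card ι ≤ 2 ^ m)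
    (f : ι → E) (hf : ∀ i, f i ∈ K) (c : ι → ℝ) (hp : IsProb c) :
    ∃ c' : ι → ℝ, IsProb c' ∧ (supp c').card ≤ 16 * N ∧ ‖∑ i, c i • f i - ∑ i, c' i • f i‖ ≤ 132 * ε := by
  obtain ⟨R, hR0, hR⟩ := exists_bound hK
  set e := rm R r N (2 ^ m) with he
  have hanti : Antitone e := rm_anti R r N _
  have hcove : ∀ k, Cov K k (e k) := rm_cov hN hR hcov
  have he0 : ∀ k, 0 ≤ e k := fun k => radius_nonneg hne (hcove k)
  have hle : ∑ k ∈ Finset.Icc N (2 ^ m), e k / k ≤ ε := by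
    refine (Finset.sum_le_sum fun k hk => ?_).trans hs
    rw [Finset.mem_Icc] at hk
    exact div_le_div_of_nonneg_right (rm_le hN hk.1 hk.2) (Nat.cast_nonneg k)
  have hε : 0 ≤ ε := le_trans (Finset.sum_nonneg fun k _ => div_nonneg (he0 k) (Nat.cast_nonneg k)) hle
  by_cases hbig : Fintype.card ι ≤ 16 * N
  · refine ⟨c, hp, (card_supp_le c).trans hbig, ?_⟩
    rw [sub_self, norm_zero]
    positivity
  · push Not at hbig
    have h2N : 2 * N ≤ 2 ^ m := by omega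
    obtain ⟨c', h1, h2, h3⟩ := tail hF hc hanti he0 hcove (N0 := 16 * N) (by omega) f hf c hp
    refine ⟨c', h1, h2, h3.trans ?_⟩
    have h4 : (16 * N) / 8 = 2 * N := by omega
    have h5 : e (16 * N / 8) ≤ 2 * ε := by
      rw [h4]
      exact (single_le hanti he0 hN h2N).trans (by linarith)
    have h6 : ∑ j ∈ Finset.Ioc (16 * N) (max (16 * N) (supp c).card), 2 * e (j / 8) / (j : ℝ) ≤ 2 * ε := by
      have h7 : ∑ j ∈ Finset.Ioc (16 * N) (max (16 * N) (supp c).card), 2 * e (j / 8) / (j : ℝ) ≤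
          ∑ j ∈ Finset.Ioc (8 * N) (2 ^ m), 2 * e (j / 8) / (j : ℝ) := by
        refine Finset.sum_le_sum_of_subset_of_nonneg ?_ fun j _ _ => div_nonneg (by have := he0 (j / 8); positivity)
          (Nat.cast_nonneg j)
        intro j hj
        rw [Finset.mem_Ioc] at hj ⊢
        have := card_supp_le c
        have h8 : max (16 * N) (supp c).card ≤ 2 ^ m := max_le (by omega) (this.trans hι)
        omega
      exact h7.trans ((sum_le he0 hN).trans (by linarith))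
    linarith

/-- a short convex combination of small vectors is small -/
theorem short_small (hF : IsFNorm E) {ι : Type*} [Fintype ι] {c : ι → ℝ} (hp : IsProb c) {n : ℕ} (hn : (supp c).card ≤ n)
    {v : ι → E} {ρ : ℝ} (hρ : 0 ≤ ρ) (hv : ∀ i, ‖v i‖ ≤ ρ) : ‖∑ i, c i • v i‖ ≤ n * ρ := by
  classical
  have h1 : ∑ i, c i • v i = ∑ i ∈ supp c, c i • v i := by
    refine (Finset.sum_subset (Finset.subset_univ _) fun i _ hi => ?_).symm
    rw [mem_supp, not_not] at hi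
    rw [hi, zero_smul]
  rw [h1]
  have hc1 : ∀ i, |c i| ≤ 1 := by
    intro i
    rw [abs_of_nonneg (hp.nonneg i), ← hp.sum]
    exact Finset.single_le_sum (fun j _ => hp.nonneg j) (Finset.mem_univ i)
  calc ‖∑ i ∈ supp c, c i • v i‖ ≤ ∑ i ∈ supp c, ‖c i • v i‖ := norm_sum_le _ _
    _ ≤ ∑ i ∈ supp c, ρ := Finset.sum_le_sum fun i _ => (hF _ _ (hc1 i)).trans (hv i)
    _ = (supp c).card * ρ := by rw [Finset.sum_const, nsmul_eq_mul]
    _ ≤ n * ρ := mul_le_mul_of_nonneg_right (by exact_mod_cast hn) hρ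

end Pool.Agent.LibAR71
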