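import Pool.Agent.LibAR71.A2

/-! helper71, MP_7cd4a5_gt, AR criterion: near-identity maps through simplices -/

namespace Pool.Agent.LibAR71

open Pool.Agent.LibEN20

variable {E : Type*} [NormedAddCommGroup E] [Module ℝ E]

/-- a net inside `K` -/
theorem exists_net {K : Set E} (hne : K.Nonempty) {m : ℕ} {r : ℝ} (h : Cov K m r) :
    ∃ P : Finset E, P.Nonempty ∧ P.card ≤ 2 ^ m ∧ (∀ y ∈ P, y ∈ K) ∧ ∀ x ∈ K, ∃ y ∈ P, ‖x - y‖ ≤ 2 * r := by
  classical
  obtain ⟨s, hs, h⟩ := h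
  have hch : ∀ y : E, ∃ z : E, (∃ x ∈ K, ‖x - y‖ ≤ r) → z ∈ K ∧ ‖z - y‖ ≤ r := by
    intro y
    by_cases hy : ∃ x ∈ K, ‖x - y‖ ≤ r
    · obtain ⟨x, hx, hxy⟩ := hy
      exact ⟨x, fun _ => ⟨hx, hxy⟩⟩
    · exact ⟨0, fun h' => absurd h' hy⟩
  choose z hz using hch
  refine ⟨(s.filter fun y => ∃ x ∈ K, ‖x - y‖ ≤ r).image z, ?_, ?_, ?_, ?_⟩
  · obtain ⟨x, hx⟩ := hne
    obtain ⟨y, hy, hxy⟩ := h x hx
    exact ⟨z y, Finset.mem_image.2 ⟨y, Finset.mem_filter.2 ⟨hy, x, hx, hxy⟩, rfl⟩⟩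
  · exact Finset.card_image_le.trans ((Finset.card_filter_le _ _).trans hs)
  · intro w hw
    obtain ⟨y, hy, rfl⟩ := Finset.mem_image.1 hw
    exact (hz y (Finset.mem_filter.1 hy).2).1
  · intro x hx
    obtain ⟨y, hy, hxy⟩ := h x hx
    refine ⟨z y, Finset.mem_image.2 ⟨y, Finset.mem_filter.2 ⟨hy, x, hx, hxy⟩, rfl⟩, ?_⟩
    have h1 := (hz y ⟨x, hx, hxy⟩).2
    calc ‖x - z y‖ = ‖(x - y) - (z y - y)‖ := by rw [sub_sub_sub_cancel_right]
      _ ≤ ‖x - y‖ + ‖z y - y‖ := norm_sub_le _ _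
      _ ≤ 2 * r := by linarith

/-- the near-identity map: `x ↦ ∑ l y x • y` -/
theorem near_id [ContinuousSMul ℝ E] (hF : IsFNorm E) {K : Set E} (hK : IsCompact K) (hc : Convex ℝ K) (hne : K.Nonempty)
    {δ : ℝ} (hδ : 0 < δ) (hcrit : Crit K (δ / 200)) :
    ∃ (P : Finset E) (l : E → E → ℝ), P.Nonempty ∧ (∀ y ∈ P, y ∈ K) ∧ (∀ y ∈ P, ContinuousOn (l y) K) ∧
      (∀ y ∈ P, ∀ x ∈ K, 0 ≤ l y x) ∧ (∀ x ∈ K, ∑ y ∈ P, l y x = 1) ∧ ∀ x ∈ K, ‖∑ y ∈ P, l y x • y - x‖ ≤ δ := by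
  classical
  obtain ⟨N, m, r, hN, hm, hcov, hNr, hsum⟩ := hcrit
  obtain ⟨P, hPne, hPc, hPK, hP⟩ := exists_net hne hm
  have hN0 : (0 : ℝ) < N := by exact_mod_cast hN
  have hr0 : 0 ≤ r m := radius_nonneg hne hm
  set ρ : ℝ := 2 * r m + δ / (200 * N) with hρdef
  have hρ0 : 0 < δ / (200 * N) := by positivity
  have hρ : 0 < ρ := by positivity
  set u : E → E → ℝ := fun y x => max 0 (ρ - ‖x - y‖) with hu
  have hu0 : ∀ y x, 0 ≤ u y x := fun y x => le_max_left _ _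
  have huc : ∀ y, Continuous (u y) := fun y => by
    simp only [hu]
    fun_prop
  have hS : ∀ x ∈ K, 0 < ∑ y ∈ P, u y x := by
    intro x hx
    obtain ⟨y, hy, hxy⟩ := hP x hx
    refine Finset.sum_pos' (fun y _ => hu0 y x) ⟨y, hy, ?_⟩
    simp only [hu]
    refine lt_max_of_lt_right ?_
    linarith
  refine ⟨P, fun y x => u y x / ∑ y' ∈ P, u y' x, hPne, hPK, fun y _ => ?_, fun y _ x hx => ?_, fun x hx => ?_, fun x hx => ?_⟩
  · refine ContinuousOn.div (huc y).continuousOn ?_ fun x hx => (hS x hx).ne'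
    exact (continuous_finsetSum _ fun y' _ => huc y').continuousOn
  · exact div_nonneg (hu0 y x) (hS x hx).le
  · rw [← Finset.sum_div, div_self (hS x hx).ne']
  · set S := ∑ y' ∈ P, u y' x with hSdef
    have hSx : 0 < S := hS x hx
    -- the indices with positive weight
    let Q : Finset E := P.filter fun y => 0 < u y x
    let c : Q → ℝ := fun y => u y x / S
    have hsumQ : ∀ g : E → E, ∑ y ∈ P, (u y x / S) • g y = ∑ i : Q, c i • g i := by
      intro g
      rw [Finset.sum_coe_sort Q (fun y => (u y x / S) • g y)]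
      refine (Finset.sum_subset (Finset.filter_subset _ _) fun y hy hyQ => ?_).symm
      have : u y x = 0 := by
        by_contra hne0
        exact hyQ (Finset.mem_filter.2 ⟨hy, lt_of_le_of_ne (hu0 y x) (Ne.symm hne0)⟩)
      rw [this, zero_div, zero_smul]
    have hprob : IsProb c := by
      refine ⟨fun i => div_nonneg (hu0 _ _) hSx.le, ?_⟩
      have h1 : ∑ i : Q, c i = ∑ y ∈ Q, u y x / S := Finset.sum_coe_sort Q (fun y => u y x / S)
      rw [h1]
      have h2 : ∑ y ∈ Q, u y x / S = ∑ y ∈ P, u y x / S := by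
        refine Finset.sum_subset (Finset.filter_subset _ _) fun y hy hyQ => ?_
        have : u y x = 0 := by
          by_contra hne0
          exact hyQ (Finset.mem_filter.2 ⟨hy, lt_of_le_of_ne (hu0 y x) (Ne.symm hne0)⟩)
        rw [this, zero_div]
      rw [h2, ← Finset.sum_div, div_self hSx.ne']
    have hcard : Fintype.card Q ≤ 2 ^ m := by
      rw [Fintype.card_coe]
      exact (Finset.card_filter_le _ _).trans hPc
    have hQK : ∀ i : Q, (i : E) ∈ K := fun i => hPK i (Finset.mem_filter.1 i.2).1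
    obtain ⟨c', hp', hc', hdiff⟩ := sparse_fin hF hK hc hne hN hcov hsum hcard (fun i : Q => (i : E)) hQK c hprob
    have hnear : ∀ i : Q, ‖(i : E) - x‖ ≤ ρ := by
      intro i
      have h1 := (Finset.mem_filter.1 i.2).2
      simp only [hu] at h1
      rcases lt_max_iff.1 h1 with h2 | h2
      · exact absurd h2 (lt_irrefl _)
      · rw [norm_sub_rev]
        linarith
    have h1 : ‖∑ i, c' i • ((i : E) - x)‖ ≤ (16 * N : ℕ) * ρ := short_small hF hp' hc' hρ.le hnear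
    have h2 : ∑ i, c' i • ((i : E) - x) = ∑ i, c' i • (i : E) - x := by
      simp only [smul_sub, Finset.sum_sub_distrib]
      rw [← Finset.sum_smul, hp'.sum, one_smul]
    rw [h2] at h1
    have h3 : ∑ y ∈ P, (u y x / S) • y - x = (∑ i, c i • (i : E) - ∑ i, c' i • (i : E)) + (∑ i, c' i • (i : E) - x) := by
      rw [hsumQ fun y => y]
      abel
    rw [h3]
    refine (norm_add_le _ _).trans ?_
    have h4 : ((16 * N : ℕ) : ℝ) * ρ = 32 * (N * r m) + 16 * (δ / 200) := by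
      rw [hρdef]
      push_cast
      field_simp
      ring
    rw [h4] at h1
    linarith

end Pool.Agent.LibAR71
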