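import Pool.Agent.LibAR71.A3

/-! helper71, MP_7cd4a5_gt, AR criterion: extension of maps into a convex set with near-identity maps through simplices -/

namespace Pool.Agent.LibAR71

open Pool.Agent.LibEN20

variable {E : Type*} [NormedAddCommGroup E] [Module ℝ E]

/-- extension of `a ↦ ∑ l y a • y`, `l` continuous weights on the closed set `A` -/
theorem ext_simplex [ContinuousSMul ℝ E] {X : Type*} [TopologicalSpace X] [NormalSpace X] {A : Set X} (hA : IsClosed A)
    {K : Set E} (hc : Convex ℝ K) {P : Finset E} (hP : P.Nonempty) (hPK : ∀ y ∈ P, y ∈ K) (w : E → X → ℝ)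
    (hw : ∀ y ∈ P, ContinuousOn (w y) A) (hw0 : ∀ y ∈ P, ∀ a ∈ A, 0 ≤ w y a) (hw1 : ∀ a ∈ A, ∑ y ∈ P, w y a = 1) :
    ∃ G : X → E, Continuous G ∧ (∀ x, G x ∈ K) ∧ ∀ a ∈ A, G a = ∑ y ∈ P, w y a • y := by
  classical
  have hext : ∀ y : E, ∃ u : X → ℝ, Continuous u ∧ (∀ x, 0 ≤ u x) ∧ (y ∈ P → ∀ a ∈ A, u a = w y a) := by
    intro y
    by_cases hy : y ∈ P
    · let f : C(A, ℝ) := ⟨fun a => w y a, (hw y hy).domRestrict⟩
      obtain ⟨g, hg⟩ := ContinuousMap.exists_restrict_eq hA f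
      refine ⟨fun x => max 0 (g x), by fun_prop, fun x => le_max_left _ _, fun _ a ha => ?_⟩
      have h1 : g a = w y a := by
        have := DFunLike.congr_fun hg ⟨a, ha⟩
        simpa [f] using this
      show max 0 (g a) = w y a
      rw [h1, max_eq_right (hw0 y hy a ha)]
    · exact ⟨fun _ => 0, continuous_const, fun _ => le_rfl, fun h => absurd h hy⟩
  choose u hu hu0 hu1 using hext
  obtain ⟨y₀, hy₀⟩ := hP
  set S : X → ℝ := fun x => ∑ y ∈ P, u y x with hS
  have hSc : Continuous S := continuous_finsetSum _ fun y _ => hu y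
  have hS0 : ∀ x, 0 ≤ S x := fun x => Finset.sum_nonneg fun y _ => hu0 y x
  set m : X → ℝ := fun x => max (S x) 1 with hm
  have hmc : Continuous m := hSc.max continuous_const
  have hm1 : ∀ x, 1 ≤ m x := fun x => le_max_right _ _
  have hm0 : ∀ x, m x ≠ 0 := fun x => (lt_of_lt_of_le zero_lt_one (hm1 x)).ne'
  have hSA : ∀ a ∈ A, S a = 1 := by
    intro a ha
    rw [← hw1 a ha]
    exact Finset.sum_congr rfl fun y hy => hu1 y hy a ha
  set t : E → X → ℝ := fun y x => u y x / m x + if y = y₀ then 1 - S x / m x else 0 with ht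
  have htc : ∀ y, Continuous (t y) := by
    intro y
    simp only [ht]
    refine ((hu y).div hmc hm0).add ?_
    split_ifs
    · exact continuous_const.sub (hSc.div hmc hm0)
    · exact continuous_const
  have ht0 : ∀ y x, 0 ≤ t y x := by
    intro y x
    simp only [ht]
    have h1 : 0 ≤ u y x / m x := div_nonneg (hu0 y x) (zero_le_one.trans (hm1 x))
    have h2 : S x / m x ≤ 1 := (div_le_one (lt_of_lt_of_le zero_lt_one (hm1 x))).2 (le_max_left _ _)
    split_ifs <;> linarith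
  have ht1 : ∀ x, ∑ y ∈ P, t y x = 1 := by
    intro x
    simp only [ht]
    rw [Finset.sum_add_distrib, ← Finset.sum_div, Finset.sum_ite_eq', if_pos hy₀]
    show S x / m x + (1 - S x / m x) = 1
    ring
  refine ⟨fun x => ∑ y ∈ P, t y x • y, ?_, fun x => ?_, fun a ha => ?_⟩
  · exact continuous_finsetSum _ fun y _ => (htc y).smul continuous_const
  · exact hc.sum_mem (fun y _ => ht0 y x) (ht1 x) hPK
  · refine Finset.sum_congr rfl fun y hy => ?_
    have h1 : m a = 1 := by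
      simp only [hm]
      rw [hSA a ha, max_self]
    simp only [ht]
    rw [h1, hSA a ha, hu1 y hy a ha]
    simp

/-- the extension property -/
theorem extension [ContinuousSMul ℝ E] (hF : IsFNorm E) {K : Set E} (hK : IsCompact K) (hc : Convex ℝ K)
    (hnear : ∀ δ > 0, ∃ (P : Finset E) (l : E → E → ℝ), P.Nonempty ∧ (∀ y ∈ P, y ∈ K) ∧ (∀ y ∈ P, ContinuousOn (l y) K) ∧
      (∀ y ∈ P, ∀ x ∈ K, 0 ≤ l y x) ∧ (∀ x ∈ K, ∑ y ∈ P, l y x = 1) ∧ ∀ x ∈ K, ‖∑ y ∈ P, l y x • y - x‖ ≤ δ)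
    {X : Type*} [TopologicalSpace X] [NormalSpace X] {A : Set X} (hA : IsClosed A) {g : X → E} (hg : ContinuousOn g A)
    (hgK : ∀ a ∈ A, g a ∈ K) : ∃ G : X → E, Continuous G ∧ (∀ x, G x ∈ K) ∧ ∀ a ∈ A, G a = g a := by
  classical
  have hδ : ∀ n : ℕ, (0 : ℝ) < (1 / 2) ^ n := fun n => by positivity
  -- the extensions of the approximations
  have h1 : ∀ n : ℕ, ∃ G : X → E, Continuous G ∧ (∀ x, G x ∈ K) ∧ ∀ a ∈ A, ‖G a - g a‖ ≤ (1 / 2) ^ n := by
    intro n
    obtain ⟨P, l, hP, hPK, hl, hl0, hl1, hl2⟩ := hnear _ (hδ n)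
    obtain ⟨G, hG, hGK, hGA⟩ := ext_simplex hA hc hP hPK (fun y a => l y (g a))
      (fun y hy => (hl y hy).comp hg hgK) (fun y hy a ha => hl0 y hy _ (hgK a ha)) (fun a ha => hl1 _ (hgK a ha))
    exact ⟨G, hG, hGK, fun a ha => by rw [hGA a ha]; exact hl2 _ (hgK a ha)⟩
  choose G hG hGK hGA using h1
  -- one gluing step
  have h2 : ∀ (n : ℕ) (H : X → E), Continuous H → (∀ x, H x ∈ K) → (∀ a ∈ A, ‖H a - g a‖ ≤ (1 / 2) ^ n) →
      ∃ H' : X → E, Continuous H' ∧ (∀ x, H' x ∈ K) ∧ (∀ a ∈ A, ‖H' a - g a‖ ≤ (1 / 2) ^ (n + 1)) ∧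
        ∀ x, ‖H' x - H x‖ ≤ 2 * (1 / 2) ^ n := by
    intro n H hH hHK hHA
    let U : Set X := {x | ‖G (n + 1) x - H x‖ < 2 * (1 / 2) ^ n}
    have hU : IsOpen U := isOpen_lt (((hG (n + 1)).sub hH).norm) continuous_const
    have hAU : A ⊆ U := by
      intro a ha
      show ‖G (n + 1) a - H a‖ < 2 * (1 / 2) ^ n
      have e1 := hGA (n + 1) a ha
      have e2 := hHA a ha
      have e3 : ‖G (n + 1) a - H a‖ ≤ ‖G (n + 1) a - g a‖ + ‖H a - g a‖ := by
        calc ‖G (n + 1) a - H a‖ = ‖(G (n + 1) a - g a) - (H a - g a)‖ := by rw [sub_sub_sub_cancel_right]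
          _ ≤ _ := norm_sub_le _ _
      have e4 : (1 / 2 : ℝ) ^ (n + 1) = (1 / 2) ^ n / 2 := by rw [pow_succ]; ring
      have := hδ n
      linarith
    obtain ⟨t, ht0, ht1, ht⟩ := exists_continuous_zero_one_of_isClosed hU.isClosed_compl hA
      (Set.disjoint_left.2 fun x hx hxA => hx (hAU hxA))
    refine ⟨fun x => H x + t x • (G (n + 1) x - H x), ?_, fun x => ?_, fun a ha => ?_, fun x => ?_⟩
    · exact hH.add (t.continuous.smul ((hG (n + 1)).sub hH))
    · have : H x + t x • (G (n + 1) x - H x) = (1 - t x) • H x + t x • G (n + 1) x := by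
        rw [smul_sub, sub_smul, one_smul]
        abel
      show H x + t x • (G (n + 1) x - H x) ∈ K
      rw [this]
      exact hc (hHK x) (hGK (n + 1) x) (sub_nonneg.2 (ht x).2) (ht x).1 (by ring)
    · have e1 : t a = 1 := ht1 ha
      show ‖H a + t a • (G (n + 1) a - H a) - g a‖ ≤ _
      rw [e1, one_smul, add_sub_cancel]
      exact hGA (n + 1) a ha
    · show ‖H x + t x • (G (n + 1) x - H x) - H x‖ ≤ _
      rw [add_sub_cancel_left]
      by_cases hx : x ∈ U
      · exact (hF _ _ (by rw [abs_of_nonneg (ht x).1]; exact (ht x).2)).trans (le_of_lt hx)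
      · have e1 : t x = 0 := ht0 hx
        rw [e1, zero_smul, norm_zero]
        have := hδ n
        positivity
  -- the sequence
  let Good : ℕ → Type _ := fun n => {H : X → E // Continuous H ∧ (∀ x, H x ∈ K) ∧ ∀ a ∈ A, ‖H a - g a‖ ≤ (1 / 2) ^ n}
  let next : ∀ n, Good n → Good (n + 1) := fun n H =>
    ⟨(h2 n H.1 H.2.1 H.2.2.1 H.2.2.2).choose, (h2 n H.1 H.2.1 H.2.2.1 H.2.2.2).choose_spec.1,
      (h2 n H.1 H.2.1 H.2.2.1 H.2.2.2).choose_spec.2.1, (h2 n H.1 H.2.1 H.2.2.1 H.2.2.2).choose_spec.2.2.1⟩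
  have hnext : ∀ n (H : Good n) x, ‖(next n H).1 x - H.1 x‖ ≤ 2 * (1 / 2) ^ n := fun n H =>
    (h2 n H.1 H.2.1 H.2.2.1 H.2.2.2).choose_spec.2.2.2
  let F : ∀ n, Good n := fun n => Nat.rec ⟨G 0, hG 0, hGK 0, hGA 0⟩ next n
  have hFs : ∀ n, F (n + 1) = next n (F n) := fun n => rfl
  have hdist : ∀ x n, dist ((F n).1 x) ((F (n + 1)).1 x) ≤ 2 * (1 / 2) ^ n := by
    intro x n
    rw [dist_comm, dist_eq_norm, hFs]
    exact hnext n (F n) x
  have hcau : ∀ x, CauchySeq fun n => (F n).1 x := fun x =>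
    cauchySeq_of_le_geometric (1 / 2) 2 (by norm_num) (hdist x)
  have hlim : ∀ x, ∃ z ∈ K, Filter.Tendsto (fun n => (F n).1 x) Filter.atTop (nhds z) := fun x =>
    cauchySeq_tendsto_of_isComplete hK.isComplete (fun n => (F n).2.2.1 x) (hcau x)
  choose Φ hΦK hΦ using hlim
  have hest : ∀ x n, dist ((F n).1 x) (Φ x) ≤ 2 * (1 / 2) ^ n / (1 - 1 / 2) := fun x n =>
    dist_le_of_le_geometric_of_tendsto (1 / 2) 2 (by norm_num) (hdist x) (hΦ x) n
  have hzero : Filter.Tendsto (fun n : ℕ => 2 * (1 / 2 : ℝ) ^ n / (1 - 1 / 2)) Filter.atTop (nhds 0) := by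
    have h3 := (tendsto_pow_atTop_nhds_zero_of_lt_one (r := (1 / 2 : ℝ)) (by norm_num) (by norm_num)).const_mul
      (2 / (1 - 1 / 2) : ℝ)
    rw [mul_zero] at h3
    refine h3.congr fun n => ?_
    ring
  refine ⟨Φ, ?_, hΦK, fun a ha => ?_⟩
  · have hunif : TendstoUniformly (fun n x => (F n).1 x) Φ Filter.atTop := by
      rw [Metric.tendstoUniformly_iff]
      intro ε hε
      filter_upwards [(hzero.eventually (gt_mem_nhds hε))] with n hn x
      rw [dist_comm]
      exact (hest x n).trans_lt hn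
    exact hunif.continuous (Filter.Frequently.of_forall fun n => (F n).2.1)
  · have h3 : Filter.Tendsto (fun n => (F n).1 a) Filter.atTop (nhds (g a)) := by
      rw [tendsto_iff_norm_sub_tendsto_zero]
      exact squeeze_zero (fun n => norm_nonneg _) (fun n => (F n).2.2.2 a ha)
        (tendsto_pow_atTop_nhds_zero_of_lt_one (by norm_num) (by norm_num))
    exact tendsto_nhds_unique (hΦ a) h3

end Pool.Agent.LibAR71
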