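import Pool.Agent.LibAR71.A4

/-! helper71, MP_7cd4a5_gt, AR criterion: the two forms of the hypothesis -/

namespace Pool.Agent.LibAR71

open Pool.Agent.LibEN20

variable {E : Type*} [NormedAddCommGroup E] [Module ℝ E]

theorem harm (m : ℕ) : ∑ k ∈ Finset.Icc (1 : ℕ) (2 ^ m), (1 : ℝ) / k ≤ m + 1 := by
  induction m with
  | zero => simp
  | succ m ih =>
    have h1 : Finset.Icc 1 (2 ^ (m + 1)) = Finset.Icc 1 (2 ^ m) ∪ Finset.Ioc (2 ^ m) (2 ^ (m + 1)) := by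
      ext k
      simp only [Finset.mem_union, Finset.mem_Icc, Finset.mem_Ioc, pow_succ]
      have : 1 ≤ 2 ^ m := Nat.one_le_two_pow
      omega
    have h2 : Disjoint (Finset.Icc 1 (2 ^ m)) (Finset.Ioc (2 ^ m) (2 ^ (m + 1))) := by
      rw [Finset.disjoint_left]
      intro k hk hk'
      rw [Finset.mem_Icc] at hk
      rw [Finset.mem_Ioc] at hk'
      omega
    rw [h1, Finset.sum_union h2]
    have h3 : ∑ k ∈ Finset.Ioc (2 ^ m : ℕ) (2 ^ (m + 1)), (1 : ℝ) / k ≤ 1 := by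
      have h4 : ∀ k ∈ Finset.Ioc (2 ^ m : ℕ) (2 ^ (m + 1)), (1 : ℝ) / k ≤ 1 / 2 ^ m := by
        intro k hk
        rw [Finset.mem_Ioc] at hk
        have h5 : (2 ^ m : ℝ) ≤ k := by exact_mod_cast hk.1.le
        exact one_div_le_one_div_of_le (by positivity) h5
      refine (Finset.sum_le_card_nsmul _ _ _ h4).trans ?_
      rw [Nat.card_Ioc, nsmul_eq_mul]
      have h6 : (2 ^ (m + 1) - 2 ^ m : ℕ) = 2 ^ m := by
        rw [pow_succ]
        omega
      rw [h6]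
      push_cast
      have : (2 ^ m : ℝ) ≠ 0 := by positivity
      field_simp
      exact le_refl _
    push_cast
    linarith

theorem crit_of_liminf {K : Set E} (h : ∀ ε > 0, ∃ m : ℕ, 1 ≤ m ∧ Cov K m (ε / m)) {ε : ℝ} (hε : 0 < ε) :
    Crit K ε := by
  obtain ⟨m, hm, hcov⟩ := h (ε / 2) (by positivity)
  have hm0 : (0 : ℝ) < m := by exact_mod_cast hm
  have hm1 : (1 : ℝ) ≤ m := by exact_mod_cast hm
  refine ⟨m, m, fun _ => ε / 2 / m, hm, hcov, fun k hk _ => cov_mono hcov hk le_rfl, ?_, ?_⟩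
  · show (m : ℝ) * (ε / 2 / m) ≤ ε
    rw [mul_div_cancel₀ _ hm0.ne']
    linarith
  · show ∑ k ∈ Finset.Icc m (2 ^ m), ε / 2 / m / (k : ℝ) ≤ ε
    have h1 : ∑ k ∈ Finset.Icc m (2 ^ m), ε / 2 / m / (k : ℝ) ≤ ∑ k ∈ Finset.Icc (1 : ℕ) (2 ^ m), ε / 2 / m / (k : ℝ) :=
      Finset.sum_le_sum_of_subset_of_nonneg (Finset.Icc_subset_Icc_left hm) fun k _ _ => by positivity
    have h2 : ∑ k ∈ Finset.Icc (1 : ℕ) (2 ^ m), ε / 2 / m / (k : ℝ) = ε / 2 / m * ∑ k ∈ Finset.Icc (1 : ℕ) (2 ^ m), (1 : ℝ) / k := by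
      rw [Finset.mul_sum]
      exact Finset.sum_congr rfl fun k _ => by ring
    have h3 : ε / 2 / m * ∑ k ∈ Finset.Icc (1 : ℕ) (2 ^ m), (1 : ℝ) / k ≤ ε / 2 / m * (m + 1) :=
      mul_le_mul_of_nonneg_left (harm m) (by positivity)
    have h4 : ε / 2 / m * (m + 1) ≤ ε / 2 / m * (2 * m) := mul_le_mul_of_nonneg_left (by linarith) (by positivity)
    have h5 : ε / 2 / m * (2 * m) = ε := by
      field_simp
    linarith

theorem ae_of_crit [ContinuousSMul ℝ E] (hF : IsFNorm E) {K : Set E} (hK : IsCompact K) (hc : Convex ℝ K) (hne : K.Nonempty)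
    (h : ∀ ε > 0, Crit K ε) {X : Type*} [TopologicalSpace X] [NormalSpace X] {A : Set X} (hA : IsClosed A) (g : C(A, K)) :
    ∃ G : C(X, K), ∀ a : A, G a = g a := by
  classical
  obtain ⟨k₀, hk₀⟩ := hne
  let g' : X → E := fun x => if hx : x ∈ A then (g ⟨x, hx⟩ : E) else k₀
  have hg' : ∀ a : A, g' a = g a := fun a => dif_pos a.2
  have hcont : ContinuousOn g' A := by
    rw [continuousOn_iff_continuous_domRestrict]
    have : A.domRestrict g' = fun a : A => (g a : E) := by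
      funext a
      exact hg' a
    rw [this]
    exact continuous_subtype_val.comp g.continuous
  obtain ⟨G, hG, hGK, hGA⟩ := extension hF hK hc
    (fun δ hδ => near_id hF hK hc ⟨k₀, hk₀⟩ hδ (h (δ / 200) (by positivity))) hA hcont
    (fun a ha => by rw [hg' ⟨a, ha⟩]; exact (g ⟨a, ha⟩).2)
  refine ⟨⟨fun x => ⟨G x, hGK x⟩, hG.subtype_mk _⟩, fun a => Subtype.ext ?_⟩
  show G a = g a
  rw [hGA a a.2, hg' a]

end Pool.Agent.LibAR71
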